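import Mathlib

open Set Filter Topology

namespace Pool.Agent.Results.MP_9df12e_lc.PerfMeager

def Gamma1 (X : Set ℝ) (V : ℕ → ℕ → Set X) : Prop :=
  (∀ n m, IsOpen (V n m)) ∧ ∀ x n, {m | x ∉ V n m}.Subsingleton

def S1 (X : Set ℝ) : Prop :=
  ∀ V : ℕ → ℕ → Set X, Gamma1 X V → ∃ d : ℕ → ℕ, ∀ x, ∀ᶠ n in atTop, x ∈ V n (d n)

def PerfectlyMeager (X : Set ℝ) : Prop :=
  ∀ P : Set ℝ, Perfect P → P.Nonempty → IsMeagre ((↑) ⁻¹' X : Set P)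

lemma split {P : Set ℝ} (hP : Perfect P) {U : Set ℝ} (hU : IsOpen U) (h : (U ∩ P).Nonempty) :
    ∃ W F U' : Set ℝ, IsOpen W ∧ (W ∩ P).Nonempty ∧ IsClosed F ∧ W ⊆ F ∧ F ⊆ U ∧ IsOpen U' ∧
      (U' ∩ P).Nonempty ∧ U' ⊆ U ∧ Disjoint F U' := by
  obtain ⟨x, h1, h2⟩ := h
  obtain ⟨y, ⟨y1, y2⟩, y3⟩ := (accPt_iff_nhds.1 (hP.acc x h2)) U (hU.mem_nhds h1)
  obtain ⟨ε, e1, e2⟩ := Metric.nhds_basis_closedBall.mem_iff.1
    ((hU.inter (isOpen_compl_singleton (x := x))).mem_nhds ⟨y1, y3⟩)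
  exact ⟨Metric.ball y ε, Metric.closedBall y ε, U \ Metric.closedBall y ε, Metric.isOpen_ball,
    ⟨y, Metric.mem_ball_self e1, y2⟩, Metric.isClosed_closedBall, Metric.ball_subset_closedBall,
    e2.trans inter_subset_left, hU.sdiff Metric.isClosed_closedBall,
    ⟨x, ⟨h1, fun k => (e2 k).2 rfl⟩, h2⟩, sdiff_subset, disjoint_sdiff_right⟩

lemma many {P : Set ℝ} (hP : Perfect P) {U : Set ℝ} (hU : IsOpen U) (h : (U ∩ P).Nonempty) :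
    ∃ W F : ℕ → Set ℝ, (∀ m, IsOpen (W m) ∧ (W m ∩ P).Nonempty ∧ IsClosed (F m) ∧ W m ⊆ F m ∧
      W m ⊆ U) ∧ ∀ a b, a < b → Disjoint (F a) (F b) := by
  choose W F U' h1 h2 h3 h4 h5 h6 h7 h8 h9 using
    fun z : {U : Set ℝ // IsOpen U ∧ (U ∩ P).Nonempty} => split hP z.2.1 z.2.2
  let z : ℕ → {U : Set ℝ // IsOpen U ∧ (U ∩ P).Nonempty} := fun k =>
    Nat.rec ⟨U, hU, h⟩ (fun _ w => ⟨U' w, h6 w, h7 w⟩) k
  have ha : Antitone fun k => (z k).1 := antitone_nat_of_succ_le fun k => h8 (z k)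
  exact ⟨fun m => W (z m), fun m => F (z m), fun m => ⟨h1 _, h2 _, h3 _, h4 _,
    (h4 _).trans ((h5 _).trans (ha m.zero_le))⟩,
    fun a b e => (h9 (z a)).mono_right ((h5 _).trans (ha (Nat.succ_le_of_lt e)))⟩

theorem result : ∀ X : Set ℝ, S1 X → PerfectlyMeager X := by
  intro X hX P hP hn
  obtain ⟨B, b1, -, b2⟩ := TopologicalSpace.exists_countable_basis ℝ
  obtain ⟨u, hu⟩ := (b1.mono (sep_subset B fun U => (U ∩ P).Nonempty)).exists_eq_range (by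
    obtain ⟨x, hx⟩ := hn
    obtain ⟨U, a, b, -⟩ := b2.exists_subset_of_mem_open (mem_univ x) isOpen_univ
    exact ⟨U, a, x, b, hx⟩)
  have hm : ∀ k, u k ∈ B ∧ (u k ∩ P).Nonempty := fun k => hu.ge ⟨k, rfl⟩
  choose W F h1 h2 using fun n : ℕ => many hP (b2.isOpen (hm n.unpair.1).1) (hm n.unpair.1).2
  obtain ⟨d, hd⟩ := hX (fun n m => (↑) ⁻¹' (F n m)ᶜ) ⟨fun n m =>
    (h1 n m).2.2.1.isOpen_compl.preimage continuous_subtype_val, fun x n a ha b hb => by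
      by_contra e
      rcases Nat.lt_or_gt_of_ne e with e | e
      exacts [disjoint_left.1 (h2 n a b e) (not_not.1 ha) (not_not.1 hb),
        disjoint_left.1 (h2 n b a e) (not_not.1 hb) (not_not.1 ha)]⟩
  have : ∀ N, IsMeagre ((↑) ⁻¹' (⋃ n ∈ Ici N, W n (d n))ᶜ : Set P) := fun N => by
    have ho : IsOpen ((↑) ⁻¹' (⋃ n ∈ Ici N, W n (d n)) : Set P) :=
      (isOpen_biUnion fun n _ => (h1 n _).1).preimage continuous_subtype_val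
    refine IsNowhereDense.isMeagre (ho.isClosed_compl.isNowhereDense_iff.2
      (Dense.interior_compl (dense_iff_inter_open.2 ?_)))
    rintro _ ⟨O, o1, rfl⟩ ⟨x, hx⟩
    obtain ⟨U, a, b, c⟩ := b2.exists_subset_of_mem_open hx o1
    obtain ⟨k, rfl⟩ := hu.le ⟨a, x, b, x.2⟩
    obtain ⟨y, y1, y2⟩ := (h1 (Nat.pair k N) (d _)).2.1
    refine ⟨⟨y, y2⟩, c ?_, mem_biUnion (Nat.right_le_pair k N) y1⟩
    simpa using (h1 (Nat.pair k N) (d _)).2.2.2.2 y1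
  refine (isMeagre_iUnion this).mono fun x hx => ?_
  obtain ⟨N, hN⟩ := eventually_atTop.1 (hd ⟨x, hx⟩)
  refine mem_iUnion.2 ⟨N, fun k => ?_⟩
  obtain ⟨n, n1, n2⟩ := mem_iUnion₂.1 k
  exact hN n n1 ((h1 n _).2.2.2.1 n2)

end Pool.Agent.Results.MP_9df12e_lc.PerfMeager
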